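import Mathlib
import Pool.Agent.P.MP_488d72_lc.CMain

set_option autoImplicit false

universe u v

namespace Pool.Agent.Results.MP_488d72_lc.BorelClassesCcc

/-- `J` is a σ-ideal of subsets of `C` with `C ∉ J`. -/
def ProperSigmaIdealOn {X : Type} (C : Set X) (J : Set (Set X)) : Prop :=
  (∀ S ∈ J, S ⊆ C) ∧ ∅ ∈ J ∧ (∀ S ∈ J, ∀ T, T ⊆ S → T ∈ J) ∧
    (∀ S : ℕ → Set X, (∀ n, S n ∈ J) → (⋃ n, S n) ∈ J) ∧ C ∉ J

/-- The assignment `I` of ideals to classes witnesses that `E` is idealistic. -/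
def IdealisticVia {X : Type} [TopologicalSpace X] (E : X → X → Prop)
    (I : Set X → Set (Set X)) : Prop :=
  (∀ x, ProperSigmaIdealOn {y | E x y} (I {y | E x y})) ∧
    ∀ A : Set (X × X), @MeasurableSet _ (borel (X × X)) A →
      @MeasurableSet _ (borel X) {x | {y | E x y ∧ (x, y) ∈ A} ∈ I {y | E x y}}

/-- The countable chain condition: a family of Borel subsets of `C` outside `J` whose pairwise
intersections lie in `J` is countable. -/
def Ccc {X : Type} [TopologicalSpace X] (C : Set X) (J : Set (Set X)) : Prop :=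
  ∀ F : Set (Set X), (∀ B ∈ F, @MeasurableSet _ (borel X) B ∧ B ⊆ C ∧ B ∉ J) →
    (F.Pairwise fun B B' => B ∩ B' ∈ J) → F.Countable

/-- `E` is Borel reducible to `F`. -/
def BorelReducible {X : Type} {Y : Type v} [TopologicalSpace X] [TopologicalSpace Y]
    (E : X → X → Prop) (F : Y → Y → Prop) : Prop :=
  ∃ f : X → Y, @Measurable _ _ (borel X) (borel Y) f ∧ ∀ x x', E x x' ↔ F (f x) (f x')

open Pool.Agent.P.MP_488d72_lc.C in
theorem result :
    ∃ E : (ℕ → ℕ) × (ℕ → ℕ) → (ℕ → ℕ) × (ℕ → ℕ) → Prop, Equivalence E ∧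
      MeasureTheory.AnalyticSet
        {p : ((ℕ → ℕ) × (ℕ → ℕ)) × ((ℕ → ℕ) × (ℕ → ℕ)) | E p.1 p.2} ∧
      (∀ x, @MeasurableSet _ (borel ((ℕ → ℕ) × (ℕ → ℕ))) {y | E x y}) ∧
      (∃ I, IdealisticVia E I ∧ ∀ x, Ccc {y | E x y} (I {y | E x y})) ∧
      ∀ (G : Type u) (Y : Type v) [Group G] [TopologicalSpace G] [IsTopologicalGroup G]
        [PolishSpace G] [TopologicalSpace Y] [PolishSpace Y] [MulAction G Y]
        [ContinuousSMul G Y], ¬ BorelReducible E (fun y y' : Y => ∃ g : G, g • y = y') := by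
  refine ⟨EE, ⟨fun _ => ⟨rfl, rfl⟩, fun h => ⟨h.1.symm, h.2.symm⟩,
    fun h h' => ⟨h.1.trans h'.1, h.2.trans h'.2⟩⟩, analytic_EE, fun x => ?_,
    ⟨idl, ⟨fun x => ⟨fun _ h => h.1, empty_mem_idl _, fun _ h _ h' => idl_mono h h',
      fun _ => iUnion_mem_idl, class_not_mem_idl x⟩, fun A hA => ?_⟩, fun x F h => ?_⟩, ?_⟩
  · rw [← BorelSpace.measurable_eq]
    exact measurableSet_class x
  · have : BorelSpace (((ℕ → ℕ) × (ℕ → ℕ)) × ((ℕ → ℕ) × (ℕ → ℕ))) := Prod.borelSpace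
    rw [← BorelSpace.measurable_eq] at hA ⊢
    exact measurableSet_idl hA
  · rw [← BorelSpace.measurable_eq] at h
    exact idl_ccc x h
  · rintro G Y _ _ _ _ _ _ _ _ ⟨f, hf, hE⟩
    borelize Y
    rw [← BorelSpace.measurable_eq (α := (ℕ → ℕ) × (ℕ → ℕ))] at hf
    exact not_reducible hf hE

end Pool.Agent.Results.MP_488d72_lc.BorelClassesCcc
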